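import Mathlib

namespace Pool.Agent.X187.AR

set_option linter.unusedSectionVars false

open Filter Topology Set Metric

section Alg

variable {𝕜 : Type} [RCLike 𝕜] {R : Type} [NormedRing R] [NormedAlgebra 𝕜 R] [CompleteSpace R]
  {S S' : R}

lemma unit_of_near {u : R} (h : ‖u - 1‖ < 1) : IsUnit u := by
  have : u = 1 - (1 - u) := by abel
  rw [this]
  exact isUnit_one_sub_of_norm_lt_one (by rwa [norm_sub_rev])

lemma not_unit_S (h1 : S' * S = 1) (h2 : S * S' ≠ 1) : ¬ IsUnit S := by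
  rintro ⟨u, rfl⟩
  apply h2
  have : S' = ((u⁻¹ : Rˣ) : R) := by
    calc S' = S' * (u * ((u⁻¹ : Rˣ) : R)) := by simp
      _ = (S' * u) * ((u⁻¹ : Rˣ) : R) := by rw [mul_assoc]
      _ = _ := by rw [h1, one_mul]
  rw [this]; simp

lemma unit_yS (h1 : S' * S = 1) (hS : ‖S‖ ≤ 1) {y : R} (hy : ‖y - S'‖ < 1) : IsUnit (y * S) := by
  apply unit_of_near
  have : y * S - 1 = (y - S') * S := by rw [sub_mul, h1]
  rw [this]
  calc ‖(y - S') * S‖ ≤ ‖y - S'‖ * ‖S‖ := norm_mul_le _ _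
    _ ≤ ‖y - S'‖ * 1 := by gcongr
    _ < 1 := by rwa [mul_one]

lemma unit_Sx (h1 : S' * S = 1) (hS' : ‖S'‖ ≤ 1) {x : R} (hx : ‖x - S‖ < 1) : IsUnit (S' * x) := by
  apply unit_of_near
  have : S' * x - 1 = S' * (x - S) := by rw [mul_sub, h1]
  rw [this]
  calc ‖S' * (x - S)‖ ≤ ‖S'‖ * ‖x - S‖ := norm_mul_le _ _
    _ ≤ 1 * ‖x - S‖ := by gcongr
    _ < 1 := by rwa [one_mul]

/-- Products near `(S, S')` are not invertible. -/
lemma prod_not_unit (h1 : S' * S = 1) (h2 : S * S' ≠ 1) (hS : ‖S‖ ≤ 1) {x y : R}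
    (hy : ‖y - S'‖ < 1) : ¬ IsUnit (x * y) := by
  intro hu
  obtain ⟨a, ha⟩ := unit_yS h1 hS hy
  obtain ⟨u, hu⟩ := hu
  -- y has a left inverse and a right inverse
  have hl : (((u⁻¹ : Rˣ) : R) * x) * y = 1 := by rw [mul_assoc, ← hu]; simp
  have hr : y * (S * ((a⁻¹ : Rˣ) : R)) = 1 := by rw [← mul_assoc, ← ha]; simp
  have hy' : IsUnit y := by
    have heq := left_inv_eq_right_inv hl hr
    exact ⟨⟨y, S * ((a⁻¹ : Rˣ) : R), hr, by rw [← heq]; exact hl⟩, rfl⟩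
  apply not_unit_S h1 h2
  obtain ⟨v, rfl⟩ := hy'
  have : S = ((v⁻¹ * a : Rˣ) : R) := by
    rw [Units.val_mul, ha, ← mul_assoc]; simp
  rw [this]
  exact (v⁻¹ * a).isUnit

/-- a square-zero perturbation of `1` is a unit -/
lemma unit_one_add_nil {n : R} (hn : n * n = 0) : IsUnit (1 + n) :=
  ⟨⟨1 + n, 1 - n, by noncomm_ring; rw [hn]; simp, by noncomm_ring; rw [hn]; simp⟩, rfl⟩

variable (𝕜) in
include 𝕜 in
/-- Products near `(S, S')` are limits of invertible elements. -/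
lemma prod_limit_unit (h1 : S' * S = 1) (hS : ‖S‖ ≤ 1) (hS' : ‖S'‖ ≤ 1) {x y : R}
    (hx : ‖x - S‖ < 1) (hy : ‖y - S'‖ < 1) {ε : ℝ} (hε : 0 < ε) :
    ∃ t : R, IsUnit t ∧ ‖t - x * y‖ < ε := by
  obtain ⟨a, ha⟩ := unit_yS h1 hS hy
  obtain ⟨b, hb⟩ := unit_Sx h1 hS' hx
  set e : R := 1 - S * S' with he
  have hS'e : S' * e = 0 := by rw [he, mul_sub, ← mul_assoc, h1]; simp
  have heS : e * S = 0 := by rw [he, sub_mul, mul_assoc, h1]; simp
  have hee : e * e = e := by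
    have : e * e = e - S * (S' * e) := by
      conv_lhs => rw [he]
      rw [← he, sub_mul, one_mul, mul_assoc]
    rw [this, hS'e]; simp
  have hsum : S * S' + e = 1 := by rw [he]; abel
  -- y = a S' G
  set n : R := S * ((a⁻¹ : Rˣ) : R) * y * e with hn
  have hnn : n * n = 0 := by
    have : n * n = S * ((a⁻¹ : Rˣ) : R) * y * (e * S) * ((a⁻¹ : Rˣ) : R) * y * e := by
      rw [hn]; simp only [mul_assoc]
    rw [this, heS]; simp
  have hy2 : y = a * (S' * (1 + n)) := by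
    have h3 : S' * n = ((a⁻¹ : Rˣ) : R) * y * e := by
      rw [hn]; simp only [← mul_assoc]; rw [h1, one_mul]
    rw [mul_add, mul_one, h3, mul_add, ha]
    simp only [← mul_assoc]
    rw [show y * S * ((a⁻¹ : Rˣ) : R) = 1 by rw [← ha]; simp, one_mul]
    rw [mul_assoc, ← mul_add, hsum, mul_one]
  -- x = G' S b
  set n' : R := e * x * ((b⁻¹ : Rˣ) : R) * S' with hn'
  have hnn' : n' * n' = 0 := by
    have : n' * n' = e * x * ((b⁻¹ : Rˣ) : R) * (S' * e) * x * ((b⁻¹ : Rˣ) : R) * S' := by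
      rw [hn']; simp only [mul_assoc]
    rw [this, hS'e]; simp
  have hx2 : x = (1 + n') * S * b := by
    have h3 : n' * S = e * x * ((b⁻¹ : Rˣ) : R) := by
      rw [hn', mul_assoc, h1, mul_one]
    rw [add_mul, one_mul, h3, add_mul, hb]
    rw [mul_assoc (e * x), show ((b⁻¹ : Rˣ) : R) * (S' * x) = 1 by rw [← hb]; simp, mul_one,
      ← mul_assoc, ← add_mul, hsum, one_mul]
  -- approximants
  obtain ⟨g, hg⟩ := unit_one_add_nil hnn
  obtain ⟨g', hg'⟩ := unit_one_add_nil hnn'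
  have hprod : x * y = g' * (S * (b * a : R) * S') * g := by
    conv_lhs => rw [hx2, hy2]
    rw [← hg, ← hg']
    simp only [mul_assoc]
  have hcont : Tendsto (fun c : ℝ => ‖(g' * ((RCLike.ofReal c : 𝕜) • e) * g : R)‖) (𝓝[>] 0) (𝓝 0) := by
    have h3 : Continuous (fun c : ℝ => ‖(g' * ((RCLike.ofReal c : 𝕜) • e) * g : R)‖) := by
      have : Continuous (fun c : ℝ => (RCLike.ofReal c : 𝕜)) := RCLike.continuous_ofReal
      fun_prop
    have h4 := h3.tendsto 0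
    simp only [map_zero, zero_smul, mul_zero, zero_mul, norm_zero] at h4
    exact h4.mono_left nhdsWithin_le_nhds
  obtain ⟨c, hc1, hc2⟩ := ((hcont.eventually (gt_mem_nhds hε)).and self_mem_nhdsWithin).exists
  have hc0 : (RCLike.ofReal c : 𝕜) ≠ 0 := by
    rw [Ne, RCLike.ofReal_eq_zero]
    exact (ne_of_gt hc2)
  have hmid : IsUnit (S * (b * a : R) * S' + (RCLike.ofReal c : 𝕜) • e) := by
    refine ⟨⟨_, S * (((a⁻¹ : Rˣ) : R) * ((b⁻¹ : Rˣ) : R)) * S' + (RCLike.ofReal c : 𝕜)⁻¹ • e, ?_, ?_⟩, rfl⟩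
    · rw [add_mul, mul_add, mul_add]
      have e1 : S * (b * a : R) * S' * (S * (((a⁻¹ : Rˣ) : R) * ((b⁻¹ : Rˣ) : R)) * S') = S * S' := by
        have : S * (b * a : R) * S' * (S * (((a⁻¹ : Rˣ) : R) * ((b⁻¹ : Rˣ) : R)) * S') =
            S * b * (a * (S' * S) * ((a⁻¹ : Rˣ) : R)) * ((b⁻¹ : Rˣ) : R) * S' := by
          simp only [mul_assoc]
        rw [this, h1]; simp [mul_assoc]
      have e2 : S * (b * a : R) * S' * ((RCLike.ofReal c : 𝕜)⁻¹ • e) = 0 := by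
        rw [mul_smul_comm, mul_assoc, hS'e]; simp
      have e3 : (RCLike.ofReal c : 𝕜) • e * (S * (((a⁻¹ : Rˣ) : R) * ((b⁻¹ : Rˣ) : R)) * S') = 0 := by
        rw [smul_mul_assoc, ← mul_assoc, ← mul_assoc, heS]; simp
      have e4 : (RCLike.ofReal c : 𝕜) • e * ((RCLike.ofReal c : 𝕜)⁻¹ • e) = e := by
        rw [smul_mul_smul_comm, mul_inv_cancel₀ hc0, one_smul, hee]
      rw [e1, e2, e3, e4, add_zero, zero_add, hsum]
    · rw [add_mul, mul_add, mul_add]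
      have e1 : S * (((a⁻¹ : Rˣ) : R) * ((b⁻¹ : Rˣ) : R)) * S' * (S * (b * a : R) * S') = S * S' := by
        have : S * (((a⁻¹ : Rˣ) : R) * ((b⁻¹ : Rˣ) : R)) * S' * (S * (b * a : R) * S') =
            S * ((a⁻¹ : Rˣ) : R) * (((b⁻¹ : Rˣ) : R) * (S' * S) * b) * a * S' := by
          simp only [mul_assoc]
        rw [this, h1]; simp [mul_assoc]
      have e2 : S * (((a⁻¹ : Rˣ) : R) * ((b⁻¹ : Rˣ) : R)) * S' * ((RCLike.ofReal c : 𝕜) • e) = 0 := by
        rw [mul_smul_comm, mul_assoc, hS'e]; simp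
      have e3 : (RCLike.ofReal c : 𝕜)⁻¹ • e * (S * (b * a : R) * S') = 0 := by
        rw [smul_mul_assoc, ← mul_assoc, ← mul_assoc, heS]; simp
      have e4 : (RCLike.ofReal c : 𝕜)⁻¹ • e * ((RCLike.ofReal c : 𝕜) • e) = e := by
        rw [smul_mul_smul_comm, inv_mul_cancel₀ hc0, one_smul, hee]
      rw [e1, e2, e3, e4, add_zero, zero_add, hsum]
  refine ⟨g' * (S * (b * a : R) * S' + (RCLike.ofReal c : 𝕜) • e) * g,
    (g'.isUnit.mul hmid).mul g.isUnit, ?_⟩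
  have : g' * (S * (b * a : R) * S' + (RCLike.ofReal c : 𝕜) • e) * g - x * y =
      g' * ((RCLike.ofReal c : 𝕜) • e) * g := by
    rw [hprod, mul_add, add_mul]; abel
  rw [this]
  exact hc1

end Alg

end Pool.Agent.X187.AR
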