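import Pool.Agent.X187.AR.Typ

namespace Pool.Agent.X187.AR

set_option linter.unusedSectionVars false

open Filter Topology Set Metric

lemma exists_weak_limit {𝕜 E : Type} [RCLike 𝕜] [NormedAddCommGroup E] [NormedSpace 𝕜 E]
    (Φ : ℕ → (E →L[𝕜] 𝕜)) {C : ℝ} (hC : ∀ n, ‖Φ n‖ ≤ C) :
    ∃ Ψ : E →L[𝕜] 𝕜, ∀ (f : E) (l : 𝕜), Tendsto (fun n => Φ n f) atTop (𝓝 l) → Ψ f = l := by
  have hC0 : 0 ≤ C := (norm_nonneg _).trans (hC 0)
  let U : Ultrafilter ℕ := hyperfilter ℕ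
  have hUle : (U : Filter ℕ) ≤ atTop := by
    rw [← Nat.cofinite_eq_atTop]; exact hyperfilter_le_cofinite
  have hlim : ∀ f : E, ∃ l : 𝕜, Tendsto (fun n => Φ n f) U (𝓝 l) ∧ ‖l‖ ≤ C * ‖f‖ := by
    intro f
    have hcomp : IsCompact (closedBall (0:𝕜) (C * ‖f‖)) := isCompact_closedBall _ _
    have hmem : ∀ n, Φ n f ∈ closedBall (0:𝕜) (C * ‖f‖) := by
      intro n
      rw [mem_closedBall_zero_iff]
      exact ((Φ n).le_opNorm f).trans (by gcongr; exact hC n)
    obtain ⟨l, hl, hle⟩ := hcomp.ultrafilter_le_nhds (U.map (fun n => Φ n f)) (by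
      have : Tendsto (fun n => Φ n f) (U : Filter ℕ) (𝓟 (closedBall (0:𝕜) (C * ‖f‖))) :=
        Filter.tendsto_principal.2 (Filter.Eventually.of_forall hmem)
      exact this)
    refine ⟨l, hle, ?_⟩
    rwa [mem_closedBall_zero_iff] at hl
  choose L hL hLn using hlim
  have huniq : ∀ (f : E) (l : 𝕜), Tendsto (fun n => Φ n f) U (𝓝 l) → L f = l :=
    fun f l h => tendsto_nhds_unique (hL f) h
  refine ⟨LinearMap.mkContinuous
    { toFun := L
      map_add' := fun f g => huniq _ _ (by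
        have := (hL f).add (hL g)
        simpa using this)
      map_smul' := fun c f => huniq _ _ (by
        have := (hL f).const_smul c
        simpa using this) } C hLn, fun f l h => ?_⟩
  exact huniq f l (h.mono_left hUle)

section Bid

variable {𝕜 : Type} [RCLike 𝕜] {H : Type} [NormedAddCommGroup H] [InnerProductSpace 𝕜 H]
  [CompleteSpace H] [Nontrivial H] (p : Pair (H →L[𝕜] H))

/-- the functional `T ↦ ⟪η, T ξ⟫` -/
noncomputable def om (ξ η : H) : (Al 𝕜 p) →L[𝕜] 𝕜 :=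
  LinearMap.mkContinuous
    { toFun := fun T => inner 𝕜 η ((T.val : H →L[𝕜] H) ξ)
      map_add' := fun T T' => by rw [Al.val_add, _root_.add_apply, inner_add_right]
      map_smul' := fun c T => by rw [Al.val_smul, _root_.smul_apply, inner_smul_right]; rfl }
    (‖ξ‖ * ‖η‖) (fun T => by
      refine (norm_inner_le_norm _ _).trans ?_
      have h1 : ‖(T.val : H →L[𝕜] H) ξ‖ ≤ ‖T‖ * ‖ξ‖ := (T.val : H →L[𝕜] H).le_opNorm ξ
      calc ‖η‖ * ‖(T.val : H →L[𝕜] H) ξ‖ ≤ ‖η‖ * (‖T‖ * ‖ξ‖) := by gcongr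
        _ = _ := by ring)

lemma om_apply (ξ η : H) (T : Al 𝕜 p) : om p ξ η T = inner 𝕜 η ((T.val : H →L[𝕜] H) ξ) := rfl

lemma norm_om (ξ η : H) : ‖om p ξ η‖ ≤ ‖ξ‖ * ‖η‖ :=
  LinearMap.mkContinuous_norm_le _ (by positivity) _

lemma om_add_left (ξ ξ' η : H) : om p (ξ + ξ') η = om p ξ η + om p ξ' η := by
  ext T; simp [om_apply, inner_add_right]
lemma om_smul_left (c : 𝕜) (ξ η : H) : om p (c • ξ) η = c • om p ξ η := by
  ext T; simp [om_apply, inner_smul_right]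
lemma om_add_right (ξ η η' : H) : om p ξ (η + η') = om p ξ η + om p ξ η' := by
  ext T; simp [om_apply, inner_add_left]
lemma om_smul_right (c : 𝕜) (ξ η : H) : om p ξ (c • η) = (starRingEnd 𝕜) c • om p ξ η := by
  ext T; simp [om_apply, inner_smul_left]

/-- the sesquilinear form of `F` -/
noncomputable def form (F : ((Al 𝕜 p) →L[𝕜] 𝕜) →L[𝕜] 𝕜) : H →L⋆[𝕜] H →L[𝕜] 𝕜 :=
  LinearMap.mkContinuous₂
    (LinearMap.mk₂'ₛₗ (starRingEnd 𝕜) (RingHom.id 𝕜) (fun η ξ => F (om p ξ η))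
      (fun η η' ξ => by rw [om_add_right, map_add])
      (fun c η ξ => by rw [om_smul_right, map_smul])
      (fun η ξ ξ' => by rw [om_add_left, map_add])
      (fun c η ξ => by rw [om_smul_left, map_smul]; rfl)) ‖F‖ (fun η ξ => by
        change ‖F (om p ξ η)‖ ≤ _
        refine (F.le_opNorm _).trans ?_
        rw [mul_assoc]
        gcongr
        rw [mul_comm]
        exact norm_om p ξ η)

lemma form_apply (F : ((Al 𝕜 p) →L[𝕜] 𝕜) →L[𝕜] 𝕜) (η ξ : H) : form p F η ξ = F (om p ξ η) := rfl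

/-- the operator of `F` -/
noncomputable def th (F : ((Al 𝕜 p) →L[𝕜] 𝕜) →L[𝕜] 𝕜) : H →L[𝕜] H :=
  ContinuousLinearMap.adjoint (InnerProductSpace.continuousLinearMapOfBilin (form p F))

lemma th_inner (F : ((Al 𝕜 p) →L[𝕜] 𝕜) →L[𝕜] 𝕜) (ξ η : H) :
    inner 𝕜 η (th p F ξ) = F (om p ξ η) := by
  unfold th
  rw [ContinuousLinearMap.adjoint_inner_right, InnerProductSpace.continuousLinearMapOfBilin_apply]
  rfl

lemma norm_th_le (F : ((Al 𝕜 p) →L[𝕜] 𝕜) →L[𝕜] 𝕜) : ‖th p F‖ ≤ ‖F‖ := by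
  refine ContinuousLinearMap.opNorm_le_bound _ (by positivity) fun ξ => ?_
  by_cases h0 : th p F ξ = 0
  · rw [h0, norm_zero]; positivity
  have h1 : ‖th p F ξ‖ * ‖th p F ξ‖ ≤ ‖F‖ * ‖ξ‖ * ‖th p F ξ‖ := by
    have h2 : ‖inner 𝕜 (th p F ξ) (th p F ξ)‖ = ‖th p F ξ‖ * ‖th p F ξ‖ := by
      rw [inner_self_eq_norm_sq_to_K]
      simp [sq]
    rw [← h2, th_inner]
    refine (F.le_opNorm _).trans ?_
    rw [mul_assoc]
    gcongr
    exact norm_om p _ _
  exact le_of_mul_le_mul_right h1 (norm_pos_iff.2 h0)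

/-- the operator of `F` as a continuous linear map -/
noncomputable def theta : (((Al 𝕜 p) →L[𝕜] 𝕜) →L[𝕜] 𝕜) →L[𝕜] (H →L[𝕜] H) :=
  LinearMap.mkContinuous
    { toFun := th p
      map_add' := fun F G => by
        ext1 ξ
        refine ext_inner_left 𝕜 fun η => ?_
        rw [_root_.add_apply, inner_add_right, th_inner, th_inner, th_inner]
        rfl
      map_smul' := fun c F => by
        ext1 ξ
        refine ext_inner_left 𝕜 fun η => ?_
        rw [RingHom.id_apply, _root_.smul_apply, inner_smul_right, th_inner, th_inner]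
        rfl }
    1 (fun F => by rw [one_mul]; exact norm_th_le p F)

lemma theta_inner (F : ((Al 𝕜 p) →L[𝕜] 𝕜) →L[𝕜] 𝕜) (ξ η : H) :
    inner 𝕜 η (theta p F ξ) = F (om p ξ η) := th_inner p F ξ η

lemma theta_arens₁ (F G : ((Al 𝕜 p) →L[𝕜] 𝕜) →L[𝕜] 𝕜) :
    theta p (arens₁ F G) = theta p F * theta p G := by
  ext1 ξ
  refine ext_inner_left 𝕜 fun η => ?_
  rw [theta_inner, arens₁_apply]
  change _ = inner 𝕜 η (theta p F (theta p G ξ))
  rw [theta_inner]
  congr 1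
  ext a
  rw [act₁_apply, om_apply]
  have h1 : actR (om p ξ η) a = om p ξ (ContinuousLinearMap.adjoint (a.val : H →L[𝕜] H) η) := by
    ext b
    rw [actR_apply, om_apply, om_apply, ContinuousLinearMap.adjoint_inner_left]
    rfl
  rw [h1, ← theta_inner, ContinuousLinearMap.adjoint_inner_left]

lemma theta_arens₂ (F G : ((Al 𝕜 p) →L[𝕜] 𝕜) →L[𝕜] 𝕜) :
    theta p (arens₂ F G) = theta p F * theta p G := by
  ext1 ξ
  refine ext_inner_left 𝕜 fun η => ?_
  rw [theta_inner, arens₂_apply]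
  change _ = inner 𝕜 η (theta p F (theta p G ξ))
  rw [← ContinuousLinearMap.adjoint_inner_left, theta_inner]
  congr 1
  ext a
  rw [act₂_apply, om_apply]
  have h1 : actL a (om p ξ η) = om p ((a.val : H →L[𝕜] H) ξ) η := by
    ext b
    rw [actL_apply, om_apply, om_apply]
    rfl
  rw [h1, ← theta_inner, ContinuousLinearMap.adjoint_inner_left]

/-- `theta` is onto. -/
lemma theta_surj (hq : ∀ ξ : H, Tendsto (fun n => p.q n ξ) atTop (𝓝 0)) :
    Function.Surjective (theta p) := by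
  intro T
  -- the approximating sequence
  have hmem : ∀ n, (1 - p.q n) * T * (1 - p.q n) ∈ p.KA 𝕜 := by
    intro n
    rw [Pair.mem_KA]
    constructor
    · refine tendsto_const_nhds.congr' ?_
      filter_upwards [eventually_ge_atTop n] with k hk
      have : (1 - p.q n) * p.q k = 0 := by rw [sub_mul, one_mul, p.q_mul_q_le hk, sub_self]
      rw [mul_assoc _ _ (p.q k), this, mul_zero, norm_zero]
    · refine tendsto_const_nhds.congr' ?_
      filter_upwards [eventually_ge_atTop n] with k hk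
      have : p.q k * (1 - p.q n) = 0 := by rw [mul_sub, mul_one, p.q_mul_q_ge hk, sub_self]
      rw [← mul_assoc, ← mul_assoc, this, zero_mul, zero_mul, norm_zero]
  let Tn : ℕ → Al 𝕜 p := fun n => Al.mk _ (hmem n)
  have hnp : ∀ n, ‖1 - p.q n‖ ≤ 2 := by
    intro n
    refine (norm_sub_le _ _).trans ?_
    rw [norm_one]
    have := p.normq n
    linarith
  have hTn : ∀ n, ‖Tn n‖ ≤ 4 * ‖T‖ := by
    intro n
    change ‖(1 - p.q n) * T * (1 - p.q n)‖ ≤ _
    calc ‖(1 - p.q n) * T * (1 - p.q n)‖ ≤ ‖(1 - p.q n) * T‖ * ‖1 - p.q n‖ := norm_mul_le _ _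
      _ ≤ (‖1 - p.q n‖ * ‖T‖) * ‖1 - p.q n‖ := by gcongr; exact norm_mul_le _ _
      _ ≤ (2 * ‖T‖) * 2 := by gcongr <;> exact hnp n
      _ = _ := by ring
  -- strong convergence
  have hstrong : ∀ ξ η : H, Tendsto (fun n => om p ξ η (Tn n)) atTop (𝓝 (inner 𝕜 η (T ξ))) := by
    intro ξ η
    have hs1 : ∀ ζ : H, Tendsto (fun n => (1 - p.q n) ζ) atTop (𝓝 ζ) := by
      intro ζ
      have := tendsto_const_nhds (x := ζ).sub (hq ζ)
      rw [sub_zero] at this
      exact this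
    have hs2 : Tendsto (fun n => (1 - p.q n) (T ((1 - p.q n) ξ))) atTop (𝓝 (T ξ)) := by
      have h1 : Tendsto (fun n => (1 - p.q n) (T ((1 - p.q n) ξ) - T ξ)) atTop (𝓝 0) := by
        have h2 : Tendsto (fun n => 2 * ‖T ((1 - p.q n) ξ) - T ξ‖) atTop (𝓝 0) := by
          have h3 := ((T.continuous.tendsto ξ).comp (hs1 ξ)).sub_const (T ξ)
          rw [sub_self] at h3
          have h4 := h3.norm.const_mul 2
          rwa [norm_zero, mul_zero] at h4
        refine squeeze_zero_norm (fun n => ?_) h2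
        exact ((1 - p.q n).le_opNorm _).trans (by gcongr; exact hnp n)
      have h5 := h1.add (hs1 (T ξ))
      rw [zero_add] at h5
      refine h5.congr fun n => ?_
      rw [map_sub, sub_add_cancel]
    exact (tendsto_const_nhds.inner hs2)
  -- weak star limit
  have hJ : ∀ n, ‖(ContinuousLinearMap.apply 𝕜 𝕜 (Tn n) : ((Al 𝕜 p) →L[𝕜] 𝕜) →L[𝕜] 𝕜)‖ ≤ 4 * ‖T‖ := by
    intro n
    refine ContinuousLinearMap.opNorm_le_bound _ (by positivity) fun f => ?_
    change ‖f (Tn n)‖ ≤ _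
    rw [mul_comm]
    exact (f.le_opNorm _).trans (by gcongr; exact hTn n)
  obtain ⟨F, hF⟩ := exists_weak_limit
    (fun n => (ContinuousLinearMap.apply 𝕜 𝕜 (Tn n) : ((Al 𝕜 p) →L[𝕜] 𝕜) →L[𝕜] 𝕜)) hJ
  refine ⟨F, ?_⟩
  ext1 ξ
  refine ext_inner_left 𝕜 fun η => ?_
  rw [theta_inner]
  exact hF _ _ (hstrong ξ η)

end Bid

end Pool.Agent.X187.AR
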