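import Mathlib

namespace Pool.Agent.X187.AR

open Filter Topology Set Metric

/-- `mul` is an open map. -/
def OpenMul {B : Type} [NormedAddCommGroup B] (mul : B → B → B) : Prop :=
  ∀ x y : B, ∀ ε > 0, ∃ δ > 0, ball (mul x y) δ ⊆ image2 mul (ball x ε) (ball y ε)

/-- `mul` is uniformly open. -/
def UniformlyOpenMul {B : Type} [NormedAddCommGroup B] (mul : B → B → B) : Prop :=
  ∀ ε > 0, ∃ δ > 0, ∀ x y : B, ball (mul x y) δ ⊆ image2 mul (ball x ε) (ball y ε)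

/-- `mul` is weakly open. -/
def WeaklyOpenMul {B : Type} [NormedAddCommGroup B] (mul : B → B → B) : Prop :=
  ∀ W : Set (B × B), IsOpen W → W.Nonempty → (interior ((fun p => mul p.1 p.2) '' W)).Nonempty

lemma UniformlyOpenMul.open {B : Type} [NormedAddCommGroup B] {mul : B → B → B}
    (h : UniformlyOpenMul mul) : OpenMul mul := by
  intro x y ε hε
  obtain ⟨δ, hδ, h1⟩ := h ε hε
  exact ⟨δ, hδ, h1 x y⟩

lemma OpenMul.weaklyOpen {B : Type} [NormedAddCommGroup B] {mul : B → B → B}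
    (h : OpenMul mul) : WeaklyOpenMul mul := by
  rintro W hW ⟨⟨x, y⟩, hxy⟩
  obtain ⟨ε, hε, hball⟩ := Metric.isOpen_iff.1 hW _ hxy
  obtain ⟨δ, hδ, h1⟩ := h x y ε hε
  refine ⟨mul x y, mem_interior.2 ⟨ball (mul x y) δ, ?_, isOpen_ball, mem_ball_self hδ⟩⟩
  intro z hz
  obtain ⟨x', hx', y', hy', rfl⟩ := h1 hz
  refine ⟨(x', y'), hball ?_, rfl⟩
  rw [← ball_prod_same]
  exact ⟨hx', hy'⟩

section Arens

variable {𝕜 : Type} [RCLike 𝕜] {A : Type} [NonUnitalNormedRing A] [NormedSpace 𝕜 A]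
  [IsScalarTower 𝕜 A A] [SMulCommClass 𝕜 A A]

/-- `(f · a)(b) = f (a b)` -/
noncomputable def actR (f : A →L[𝕜] 𝕜) (a : A) : A →L[𝕜] 𝕜 :=
  f.comp (ContinuousLinearMap.mul 𝕜 A a)

/-- `(a · f)(b) = f (b a)` -/
noncomputable def actL (a : A) (f : A →L[𝕜] 𝕜) : A →L[𝕜] 𝕜 :=
  f.comp ((ContinuousLinearMap.mul 𝕜 A).flip a)

lemma actR_apply (f : A →L[𝕜] 𝕜) (a b : A) : actR f a b = f (a * b) := rfl
lemma actL_apply (f : A →L[𝕜] 𝕜) (a b : A) : actL a f b = f (b * a) := rfl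

lemma norm_actR (f : A →L[𝕜] 𝕜) (a : A) : ‖actR f a‖ ≤ ‖f‖ * ‖a‖ := by
  refine ContinuousLinearMap.opNorm_le_bound _ (by positivity) fun b => ?_
  rw [actR_apply, mul_assoc]
  exact (f.le_opNorm _).trans (by gcongr; exact norm_mul_le _ _)

lemma norm_actL (f : A →L[𝕜] 𝕜) (a : A) : ‖actL a f‖ ≤ ‖f‖ * ‖a‖ := by
  refine ContinuousLinearMap.opNorm_le_bound _ (by positivity) fun b => ?_
  rw [actL_apply, mul_assoc, mul_comm ‖a‖]
  exact (f.le_opNorm _).trans (by gcongr; exact norm_mul_le _ _)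

/-- `(G · f)(a) = G (f · a)` -/
noncomputable def act₁ (G : (A →L[𝕜] 𝕜) →L[𝕜] 𝕜) (f : A →L[𝕜] 𝕜) : A →L[𝕜] 𝕜 :=
  LinearMap.mkContinuous
    { toFun := fun a => G (actR f a)
      map_add' := fun a b => by
        rw [← map_add]; congr 1; ext c; simp [actR_apply, add_mul]
      map_smul' := fun t a => by
        rw [RingHom.id_apply, ← map_smul]; congr 1; ext c; simp [actR_apply, smul_mul_assoc] }
    (‖G‖ * ‖f‖) (fun a => by
      refine (G.le_opNorm _).trans ?_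
      rw [mul_assoc]
      gcongr
      exact norm_actR f a)

/-- `(f · F)(a) = F (a · f)` -/
noncomputable def act₂ (f : A →L[𝕜] 𝕜) (F : (A →L[𝕜] 𝕜) →L[𝕜] 𝕜) : A →L[𝕜] 𝕜 :=
  LinearMap.mkContinuous
    { toFun := fun a => F (actL a f)
      map_add' := fun a b => by
        rw [← map_add]; congr 1; ext c; simp [actL_apply, mul_add]
      map_smul' := fun t a => by
        rw [RingHom.id_apply, ← map_smul]; congr 1; ext c; simp [actL_apply, mul_smul_comm] }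
    (‖F‖ * ‖f‖) (fun a => by
      refine (F.le_opNorm _).trans ?_
      rw [mul_assoc]
      gcongr
      exact norm_actL f a)

lemma act₁_apply (G : (A →L[𝕜] 𝕜) →L[𝕜] 𝕜) (f : A →L[𝕜] 𝕜) (a : A) :
    act₁ G f a = G (actR f a) := rfl
lemma act₂_apply (F : (A →L[𝕜] 𝕜) →L[𝕜] 𝕜) (f : A →L[𝕜] 𝕜) (a : A) :
    act₂ f F a = F (actL a f) := rfl

lemma norm_act₁ (G : (A →L[𝕜] 𝕜) →L[𝕜] 𝕜) (f : A →L[𝕜] 𝕜) : ‖act₁ G f‖ ≤ ‖G‖ * ‖f‖ :=
  LinearMap.mkContinuous_norm_le _ (by positivity) _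

lemma norm_act₂ (F : (A →L[𝕜] 𝕜) →L[𝕜] 𝕜) (f : A →L[𝕜] 𝕜) : ‖act₂ f F‖ ≤ ‖F‖ * ‖f‖ :=
  LinearMap.mkContinuous_norm_le _ (by positivity) _

/-- The first Arens product `(F □ G)(f) = F (G · f)` -/
noncomputable def arens₁ (F G : (A →L[𝕜] 𝕜) →L[𝕜] 𝕜) : (A →L[𝕜] 𝕜) →L[𝕜] 𝕜 :=
  LinearMap.mkContinuous
    { toFun := fun f => F (act₁ G f)
      map_add' := fun f g => by
        rw [← map_add]; congr 1; ext c
        simp only [act₁_apply, _root_.add_apply, ← map_add]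
        congr 1
      map_smul' := fun t f => by
        rw [RingHom.id_apply, ← map_smul]; congr 1; ext c
        simp only [act₁_apply, _root_.smul_apply, ← map_smul]
        congr 1 }
    (‖F‖ * ‖G‖) (fun f => by
      refine (F.le_opNorm _).trans ?_
      rw [mul_assoc]
      gcongr
      exact norm_act₁ G f)

/-- The second Arens product `(F ◇ G)(f) = G (f · F)` -/
noncomputable def arens₂ (F G : (A →L[𝕜] 𝕜) →L[𝕜] 𝕜) : (A →L[𝕜] 𝕜) →L[𝕜] 𝕜 :=
  LinearMap.mkContinuous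
    { toFun := fun f => G (act₂ f F)
      map_add' := fun f g => by
        rw [← map_add]; congr 1; ext c
        simp only [act₂_apply, _root_.add_apply, ← map_add]
        congr 1
      map_smul' := fun t f => by
        rw [RingHom.id_apply, ← map_smul]; congr 1; ext c
        simp only [act₂_apply, _root_.smul_apply, ← map_smul]
        congr 1 }
    (‖G‖ * ‖F‖) (fun f => by
      refine (G.le_opNorm _).trans ?_
      rw [mul_assoc]
      gcongr
      exact norm_act₂ F f)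

lemma arens₁_apply (F G : (A →L[𝕜] 𝕜) →L[𝕜] 𝕜) (f : A →L[𝕜] 𝕜) :
    arens₁ F G f = F (act₁ G f) := rfl
lemma arens₂_apply (F G : (A →L[𝕜] 𝕜) →L[𝕜] 𝕜) (f : A →L[𝕜] 𝕜) :
    arens₂ F G f = G (act₂ f F) := rfl

end Arens

end Pool.Agent.X187.AR
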