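import Pool.Agent.X187.AR.Bid

namespace Pool.Agent.X187.AR

set_option linter.unusedSectionVars false

open Filter Topology Set Metric
open scoped ENNReal

section Gen

variable {𝕜 : Type} [RCLike 𝕜] {R : Type} [NormedRing R] [NormedAlgebra 𝕜 R] [CompleteSpace R]
  {B : Type} [NormedAddCommGroup B] [NormedSpace 𝕜 B] [CompleteSpace B]

lemma not_weaklyOpen (p : Pair R) (mul : B → B → B) (θ : B →L[𝕜] R)
    (hsurj : Function.Surjective θ) (hmul : ∀ a b, θ (mul a b) = θ a * θ b) :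
    ¬ WeaklyOpenMul mul := by
  intro h
  have hW : IsOpen ((θ ⁻¹' ball p.S 1) ×ˢ (θ ⁻¹' ball p.S' 1)) :=
    (isOpen_ball.preimage θ.continuous).prod (isOpen_ball.preimage θ.continuous)
  obtain ⟨a0, ha0⟩ := hsurj p.S
  obtain ⟨b0, hb0⟩ := hsurj p.S'
  have hne : ((θ ⁻¹' ball p.S 1) ×ˢ (θ ⁻¹' ball p.S' 1)).Nonempty := by
    refine ⟨(a0, b0), ?_, ?_⟩
    · change θ a0 ∈ ball p.S 1
      rw [ha0]; exact mem_ball_self one_pos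
    · change θ b0 ∈ ball p.S' 1
      rw [hb0]; exact mem_ball_self one_pos
  obtain ⟨t0, ht0⟩ := h _ hW hne
  set O := interior ((fun p : B × B => mul p.1 p.2) '' ((θ ⁻¹' ball p.S 1) ×ˢ (θ ⁻¹' ball p.S' 1))) with hO
  have hOopen : IsOpen (θ '' O) := θ.isOpenMap hsurj _ isOpen_interior
  obtain ⟨ε, hε, hball⟩ := Metric.isOpen_iff.1 hOopen (θ t0) ⟨t0, ht0, rfl⟩
  obtain ⟨⟨a, b⟩, ⟨ha, hb⟩, hab⟩ := interior_subset ht0
  simp only at hab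
  have ha' : ‖θ a - p.S‖ < 1 := by
    have : θ a ∈ ball p.S 1 := ha
    rwa [mem_ball, dist_eq_norm] at this
  have hb' : ‖θ b - p.S'‖ < 1 := by
    have : θ b ∈ ball p.S' 1 := hb
    rwa [mem_ball, dist_eq_norm] at this
  obtain ⟨t, htu, htn⟩ := prod_limit_unit 𝕜 p.h1 p.hS p.hS' ha' hb' hε
  have ht : t ∈ θ '' O := by
    apply hball
    rw [mem_ball, dist_eq_norm, ← hab, hmul]
    exact htn
  obtain ⟨u, hu, hut⟩ := ht
  obtain ⟨⟨a', b'⟩, ⟨ha2, hb2⟩, hab2⟩ := interior_subset hu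
  simp only at hab2
  have hb3 : ‖θ b' - p.S'‖ < 1 := by
    have : θ b' ∈ ball p.S' 1 := hb2
    rwa [mem_ball, dist_eq_norm] at this
  rw [← hut, ← hab2, hmul] at htu
  exact prod_not_unit p.h1 p.h2 p.hS hb3 htu

end Gen

section Main

variable {𝕜 : Type} [RCLike 𝕜] {H : Type} [NormedAddCommGroup H] [InnerProductSpace 𝕜 H]
  [CompleteSpace H] [Nontrivial H] (p : Pair (H →L[𝕜] H))

theorem main_general (hq : ∀ ξ : H, Tendsto (fun n => p.q n ξ) atTop (𝓝 0)) :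
    ∃ (A : Type) (_ : NonUnitalNormedRing A) (_ : NormedSpace 𝕜 A) (_ : IsScalarTower 𝕜 A A)
      (_ : SMulCommClass 𝕜 A A),
      CompleteSpace A ∧
      UniformlyOpenMul (fun a b : A => a * b) ∧
      ¬ WeaklyOpenMul (fun F G : (A →L[𝕜] 𝕜) →L[𝕜] 𝕜 => arens₁ F G) ∧
      ¬ WeaklyOpenMul (fun F G : (A →L[𝕜] 𝕜) →L[𝕜] 𝕜 => arens₂ F G) :=
  ⟨Al 𝕜 p, inferInstance, inferInstance, inferInstance, inferInstance, inferInstance,
    Al.uniformlyOpen,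
    @not_weaklyOpen 𝕜 _ (H →L[𝕜] H) _ _ _ ((Al 𝕜 p →L[𝕜] 𝕜) →L[𝕜] 𝕜) _ _ _ p
      (fun F G => arens₁ F G) (theta p) (theta_surj p hq) (theta_arens₁ p),
    @not_weaklyOpen 𝕜 _ (H →L[𝕜] H) _ _ _ ((Al 𝕜 p →L[𝕜] 𝕜) →L[𝕜] 𝕜) _ _ _ p
      (fun F G => arens₂ F G) (theta p) (theta_surj p hq) (theta_arens₂ p)⟩

end Main

section Shift

variable {𝕜 : Type} [RCLike 𝕜]

lemma memlp_iff (f : ℕ → 𝕜) : Memℓp f 2 ↔ Summable (fun n => ‖f n‖ ^ 2) := by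
  rw [memℓp_gen_iff (by norm_num)]
  simp

lemma lp_norm_sq (x : lp (fun _ : ℕ => 𝕜) 2) : ‖x‖ ^ 2 = ∑' n, ‖x n‖ ^ 2 := by
  have := lp.norm_rpow_eq_tsum (by norm_num : 0 < (2:ℝ≥0∞).toReal) x
  simpa using this

/-- right shift of a sequence -/
def rs (f : ℕ → 𝕜) : ℕ → 𝕜
  | 0 => 0
  | n+1 => f n

lemma memlp_ls (x : lp (fun _ : ℕ => 𝕜) 2) : Memℓp (fun n => x (n+1)) 2 := by
  rw [memlp_iff]
  have h := (memlp_iff _).1 (lp.memℓp x)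
  exact (summable_nat_add_iff 1).2 h

lemma memlp_rs (x : lp (fun _ : ℕ => 𝕜) 2) : Memℓp (rs (x : ℕ → 𝕜)) 2 := by
  rw [memlp_iff]
  have h := (memlp_iff _).1 (lp.memℓp x)
  exact (summable_nat_add_iff 1).1 h

variable (𝕜) in
/-- the space `ℓ²` -/
def HH : Type := lp (fun _ : ℕ => 𝕜) 2

noncomputable instance : NormedAddCommGroup (HH 𝕜) :=
  inferInstanceAs (NormedAddCommGroup (lp (fun _ : ℕ => 𝕜) 2))
noncomputable instance : InnerProductSpace 𝕜 (HH 𝕜) :=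
  inferInstanceAs (InnerProductSpace 𝕜 (lp (fun _ : ℕ => 𝕜) 2))
instance : CompleteSpace (HH 𝕜) := inferInstanceAs (CompleteSpace (lp (fun _ : ℕ => 𝕜) 2))

/-- to `lp` -/
def HH.toLp (x : HH 𝕜) : lp (fun _ : ℕ => 𝕜) 2 := x
/-- from `lp` -/
def HH.of (x : lp (fun _ : ℕ => 𝕜) 2) : HH 𝕜 := x

/-- coordinates -/
def HH.c (x : HH 𝕜) (n : ℕ) : 𝕜 := x.toLp n

lemma HH.ext {x y : HH 𝕜} (h : ∀ n, x.c n = y.c n) : x = y := lp.ext (funext h)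

lemma HH.norm_sq (x : HH 𝕜) : ‖x‖ ^ 2 = ∑' n, ‖x.c n‖ ^ 2 := lp_norm_sq x.toLp

/-- left shift -/
noncomputable def Ls : HH 𝕜 →L[𝕜] HH 𝕜 :=
  LinearMap.mkContinuous
    { toFun := fun x => HH.of ⟨fun n => x.toLp (n+1), memlp_ls x.toLp⟩
      map_add' := fun x y => rfl
      map_smul' := fun c x => rfl } 1 (fun x => by
    rw [one_mul]
    refine le_of_sq_le_sq ?_ (norm_nonneg _)
    rw [HH.norm_sq, HH.norm_sq]
    have h : Summable (fun n => ‖x.c n‖ ^ 2) := (memlp_iff _).1 (lp.memℓp x.toLp)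
    rw [h.tsum_eq_zero_add]
    have : 0 ≤ ‖x.c 0‖^2 := by positivity
    change ∑' n, ‖x.c (n+1)‖ ^ 2 ≤ _
    linarith)

/-- right shift -/
noncomputable def Rs : HH 𝕜 →L[𝕜] HH 𝕜 :=
  LinearMap.mkContinuous
    { toFun := fun x => HH.of ⟨rs (x.toLp : ℕ → 𝕜), memlp_rs x.toLp⟩
      map_add' := fun x y => by
        apply HH.ext; intro n
        cases n with
        | zero => exact (add_zero (0:𝕜)).symm
        | succ n => rfl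
      map_smul' := fun c x => by
        apply HH.ext; intro n
        cases n with
        | zero => exact (mul_zero c).symm
        | succ n => rfl } 1 (fun x => by
    rw [one_mul]
    refine le_of_sq_le_sq ?_ (norm_nonneg _)
    rw [HH.norm_sq, HH.norm_sq]
    have h := (memlp_iff _).1 (memlp_rs x.toLp)
    change ∑' n, ‖rs (x.toLp : ℕ → 𝕜) n‖ ^ 2 ≤ _
    rw [h.tsum_eq_zero_add]
    change ‖(0:𝕜)‖^2 + ∑' n, ‖x.c n‖ ^ 2 ≤ _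
    simp)

lemma Ls_apply (x : HH 𝕜) (n : ℕ) : (Ls x).c n = x.c (n+1) := rfl
lemma Rs_zero (x : HH 𝕜) : (Rs x).c 0 = 0 := rfl
lemma Rs_succ (x : HH 𝕜) (n : ℕ) : (Rs x).c (n+1) = x.c n := rfl

lemma Ls_pow (n : ℕ) (x : HH 𝕜) (k : ℕ) : ((Ls ^ n : HH 𝕜 →L[𝕜] HH 𝕜) x).c k = x.c (k+n) := by
  induction n generalizing k with
  | zero => rfl
  | succ n ih =>
    rw [pow_succ']
    change (Ls ((Ls ^ n : HH 𝕜 →L[𝕜] HH 𝕜) x)).c k = _
    rw [Ls_apply, ih, show k + 1 + n = k + (n + 1) by ring]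

variable (𝕜) in
/-- the first unit vector -/
noncomputable def e0 : HH 𝕜 := HH.of (lp.single 2 0 (1:𝕜))

lemma e0_c : (e0 𝕜).c 0 = 1 := by
  change (lp.single 2 0 (1:𝕜) : lp (fun _ : ℕ => 𝕜) 2) 0 = 1
  simp

variable (𝕜) in
/-- the pair of shifts -/
noncomputable def shiftPair : Pair (HH 𝕜 →L[𝕜] HH 𝕜) where
  S := Rs
  S' := Ls
  h1 := by
    ext1 x
    apply HH.ext; intro n
    rfl
  h2 := by
    intro h
    have h1 : (Rs (Ls (e0 𝕜))).c 0 = (e0 𝕜).c 0 :=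
      congrArg (fun T : HH 𝕜 →L[𝕜] HH 𝕜 => (T (e0 𝕜)).c 0) h
    rw [Rs_zero, e0_c] at h1
    exact zero_ne_one h1
  hS := LinearMap.mkContinuous_norm_le _ zero_le_one _
  hS' := LinearMap.mkContinuous_norm_le _ zero_le_one _

instance : Nontrivial (HH 𝕜) := by
  refine ⟨e0 𝕜, 0, fun h => ?_⟩
  have h1 : (e0 𝕜).c 0 = (0 : HH 𝕜).c 0 := by rw [h]
  rw [e0_c] at h1
  exact one_ne_zero h1

lemma shift_q (ξ : HH 𝕜) : Tendsto (fun n => (shiftPair 𝕜).q n ξ) atTop (𝓝 0) := by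
  have h1 : Tendsto (fun n => ‖(Ls ^ n : HH 𝕜 →L[𝕜] HH 𝕜) ξ‖ ^ 2) atTop (𝓝 0) := by
    have h2 := tendsto_sum_nat_add (fun n => ‖ξ.c n‖ ^ 2)
    refine h2.congr fun n => ?_
    rw [HH.norm_sq]
    simp only [Ls_pow]
  have h3 : Tendsto (fun n => ‖(Ls ^ n : HH 𝕜 →L[𝕜] HH 𝕜) ξ‖) atTop (𝓝 0) := by
    have := h1.sqrt
    rw [Real.sqrt_zero] at this
    refine this.congr fun n => ?_
    exact Real.sqrt_sq (norm_nonneg _)
  refine squeeze_zero_norm (fun n => ?_) h3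
  change ‖(Rs ^ n : HH 𝕜 →L[𝕜] HH 𝕜) ((Ls ^ n : HH 𝕜 →L[𝕜] HH 𝕜) ξ)‖ ≤ _
  calc _ ≤ ‖(Rs ^ n : HH 𝕜 →L[𝕜] HH 𝕜)‖ * ‖(Ls ^ n : HH 𝕜 →L[𝕜] HH 𝕜) ξ‖ :=
        ContinuousLinearMap.le_opNorm _ _
    _ ≤ 1 * ‖(Ls ^ n : HH 𝕜 →L[𝕜] HH 𝕜) ξ‖ := by
      gcongr
      exact (shiftPair 𝕜).normS n
    _ = _ := one_mul _

variable (𝕜) in
theorem main :
    ∃ (A : Type) (_ : NonUnitalNormedRing A) (_ : NormedSpace 𝕜 A) (_ : IsScalarTower 𝕜 A A)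
      (_ : SMulCommClass 𝕜 A A),
      CompleteSpace A ∧
      UniformlyOpenMul (fun a b : A => a * b) ∧
      ¬ WeaklyOpenMul (fun F G : (A →L[𝕜] 𝕜) →L[𝕜] 𝕜 => arens₁ F G) ∧
      ¬ WeaklyOpenMul (fun F G : (A →L[𝕜] 𝕜) →L[𝕜] 𝕜 => arens₂ F G) :=
  main_general (shiftPair 𝕜) shift_q

end Shift

end Pool.Agent.X187.AR
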