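import Pool.Agent.X187.AR.Def
import Pool.Agent.X187.AR.Alg

namespace Pool.Agent.X187.AR

set_option linter.unusedSectionVars false

open Filter Topology Set Metric

section Sub

variable (𝕜 : Type) [RCLike 𝕜] {R : Type} [NormedRing R] [NormedAlgebra 𝕜 R] [CompleteSpace R]
  [NormOneClass R]

/-- A left invertible contraction with contractive left inverse. -/
structure Pair (R : Type) [NormedRing R] where
  S : R
  S' : R
  h1 : S' * S = 1
  h2 : S * S' ≠ 1
  hS : ‖S‖ ≤ 1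
  hS' : ‖S'‖ ≤ 1

variable (p : Pair R)

namespace Pair

/-- the projections `S^n S'^n` -/
def q (n : ℕ) : R := p.S ^ n * p.S' ^ n

lemma normS (n : ℕ) : ‖p.S ^ n‖ ≤ 1 := (norm_pow_le _ _).trans (pow_le_one₀ (norm_nonneg _) p.hS)
lemma normS' (n : ℕ) : ‖p.S' ^ n‖ ≤ 1 := (norm_pow_le _ _).trans (pow_le_one₀ (norm_nonneg _) p.hS')
lemma normq (n : ℕ) : ‖p.q n‖ ≤ 1 := by
  refine (norm_mul_le _ _).trans ?_
  exact mul_le_one₀ (p.normS n) (norm_nonneg _) (p.normS' n)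

lemma cancel (n : ℕ) : p.S' ^ n * p.S ^ n = 1 := by
  induction n with
  | zero => simp
  | succ n ih =>
    rw [pow_succ, pow_succ', mul_assoc, ← mul_assoc p.S', p.h1, one_mul, ih]

lemma cancel_add (n k : ℕ) : p.S' ^ n * p.S ^ (n + k) = p.S ^ k := by
  rw [pow_add, ← mul_assoc, cancel, one_mul]

lemma cancel_add' (n k : ℕ) : p.S' ^ (k + n) * p.S ^ n = p.S' ^ k := by
  rw [pow_add, mul_assoc, cancel, mul_one]

lemma q_zero : p.q 0 = 1 := by simp [q]

lemma q_mul_q_le {m n : ℕ} (h : m ≤ n) : p.q m * p.q n = p.q n := by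
  obtain ⟨k, rfl⟩ := Nat.exists_eq_add_of_le h
  unfold q
  rw [mul_assoc, ← mul_assoc (p.S' ^ m), cancel_add, ← mul_assoc, ← pow_add]

lemma q_mul_q_ge {m n : ℕ} (h : n ≤ m) : p.q m * p.q n = p.q m := by
  obtain ⟨k, rfl⟩ := Nat.exists_eq_add_of_le' h
  unfold q
  rw [mul_assoc, ← mul_assoc (p.S' ^ (k+n)), cancel_add', ← pow_add]

lemma q_mul_S (n : ℕ) : p.q n * p.S ^ n = p.S ^ n := by
  unfold q; rw [mul_assoc, cancel, mul_one]

lemma S'_mul_q (n : ℕ) : p.S' ^ n * p.q n = p.S' ^ n := by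
  unfold q; rw [← mul_assoc, cancel, one_mul]

lemma S'_mul_q_add (n k : ℕ) : p.S' ^ n * p.q (n+k) = p.q k * p.S' ^ n := by
  unfold q
  rw [← mul_assoc, cancel_add, mul_assoc, ← pow_add, add_comm k n]

lemma q_add_mul_S (n k : ℕ) : p.q (k+n) * p.S ^ n = p.S ^ n * p.q k := by
  unfold q
  rw [mul_assoc, cancel_add', ← mul_assoc, ← pow_add, add_comm n k]

/-- the subalgebra of the elements that are small on the tails -/
def KA : NonUnitalSubalgebra 𝕜 R where
  carrier := {T | Tendsto (fun n => ‖T * p.q n‖) atTop (𝓝 0) ∧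
    Tendsto (fun n => ‖p.q n * T‖) atTop (𝓝 0)}
  zero_mem' := by simp
  add_mem' := by
    rintro a b ⟨ha, ha'⟩ ⟨hb, hb'⟩
    constructor
    · have := ha.add hb
      rw [add_zero] at this
      refine squeeze_zero (fun _ => norm_nonneg _) (fun n => ?_) this
      rw [add_mul]; exact norm_add_le _ _
    · have := ha'.add hb'
      rw [add_zero] at this
      refine squeeze_zero (fun _ => norm_nonneg _) (fun n => ?_) this
      rw [mul_add]; exact norm_add_le _ _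
  mul_mem' := by
    rintro a b ⟨ha, ha'⟩ ⟨hb, hb'⟩
    constructor
    · have := hb.const_mul ‖a‖
      rw [mul_zero] at this
      refine squeeze_zero (fun _ => norm_nonneg _) (fun n => ?_) this
      rw [mul_assoc]; exact norm_mul_le _ _
    · have := ha'.mul_const ‖b‖
      rw [zero_mul] at this
      refine squeeze_zero (fun _ => norm_nonneg _) (fun n => ?_) this
      rw [← mul_assoc]; exact norm_mul_le _ _
  smul_mem' := by
    rintro c a ⟨ha, ha'⟩
    constructor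
    · have := ha.const_mul ‖c‖
      rw [mul_zero] at this
      refine squeeze_zero (fun _ => norm_nonneg _) (fun n => ?_) this
      rw [smul_mul_assoc]; exact norm_smul_le _ _
    · have := ha'.const_mul ‖c‖
      rw [mul_zero] at this
      refine squeeze_zero (fun _ => norm_nonneg _) (fun n => ?_) this
      rw [mul_smul_comm]; exact norm_smul_le _ _

lemma mem_KA {T : R} : T ∈ p.KA 𝕜 ↔ Tendsto (fun n => ‖T * p.q n‖) atTop (𝓝 0) ∧
    Tendsto (fun n => ‖p.q n * T‖) atTop (𝓝 0) := Iff.rfl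

lemma mem_of_approx {T : R} (h : ∀ ε > 0, ∃ T' ∈ p.KA 𝕜, ‖T - T'‖ ≤ ε) : T ∈ p.KA 𝕜 := by
  rw [mem_KA]
  constructor
  · rw [Metric.tendsto_atTop]
    intro ε hε
    obtain ⟨T', hT', hd⟩ := h (ε/3) (by positivity)
    obtain ⟨N, hN⟩ := Metric.tendsto_atTop.1 hT'.1 (ε/3) (by positivity)
    refine ⟨N, fun n hn => ?_⟩
    have h3 := hN n hn
    rw [Real.dist_eq, sub_zero, abs_of_nonneg (norm_nonneg _)] at h3 ⊢
    calc ‖T * p.q n‖ = ‖(T - T') * p.q n + T' * p.q n‖ := by rw [← add_mul, sub_add_cancel]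
      _ ≤ ‖(T - T') * p.q n‖ + ‖T' * p.q n‖ := norm_add_le _ _
      _ ≤ ‖T - T'‖ * ‖p.q n‖ + ‖T' * p.q n‖ := by gcongr; exact norm_mul_le _ _
      _ ≤ ε/3 * 1 + ‖T' * p.q n‖ := by
        gcongr
        exact p.normq n
      _ < ε := by linarith
  · rw [Metric.tendsto_atTop]
    intro ε hε
    obtain ⟨T', hT', hd⟩ := h (ε/3) (by positivity)
    obtain ⟨N, hN⟩ := Metric.tendsto_atTop.1 hT'.2 (ε/3) (by positivity)
    refine ⟨N, fun n hn => ?_⟩
    have h3 := hN n hn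
    rw [Real.dist_eq, sub_zero, abs_of_nonneg (norm_nonneg _)] at h3 ⊢
    calc ‖p.q n * T‖ = ‖p.q n * (T - T') + p.q n * T'‖ := by rw [← mul_add, sub_add_cancel]
      _ ≤ ‖p.q n * (T - T')‖ + ‖p.q n * T'‖ := norm_add_le _ _
      _ ≤ ‖p.q n‖ * ‖T - T'‖ + ‖p.q n * T'‖ := by gcongr; exact norm_mul_le _ _
      _ ≤ 1 * (ε/3) + ‖p.q n * T'‖ := by
        gcongr
        exact p.normq n
      _ < ε := by linarith

lemma isClosed_KA : IsClosed (p.KA 𝕜 : Set R) := by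
  rw [← closure_subset_iff_isClosed]
  intro T hT
  refine p.mem_of_approx 𝕜 fun ε hε => ?_
  obtain ⟨T', hT', hd⟩ := Metric.mem_closure_iff.1 hT ε hε
  rw [dist_eq_norm] at hd
  exact ⟨T', hT', hd.le⟩

instance : CompleteSpace (p.KA 𝕜) := (p.isClosed_KA 𝕜).completeSpace_coe

lemma p_mem (n : ℕ) : 1 - p.q n ∈ p.KA 𝕜 := by
  rw [mem_KA]
  constructor
  · refine tendsto_const_nhds.congr' ?_
    filter_upwards [eventually_ge_atTop n] with k hk
    rw [sub_mul, one_mul, p.q_mul_q_le hk, sub_self, norm_zero]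
  · refine tendsto_const_nhds.congr' ?_
    filter_upwards [eventually_ge_atTop n] with k hk
    rw [mul_sub, mul_one, p.q_mul_q_ge hk, sub_self, norm_zero]

lemma mul_S'_mem {T : R} (hT : T ∈ p.KA 𝕜) (n : ℕ) : T * p.S' ^ n ∈ p.KA 𝕜 := by
  rw [mem_KA] at *
  constructor
  · have h1 : Tendsto (fun k => ‖T * p.q (k - n)‖) atTop (𝓝 0) :=
      hT.1.comp (tendsto_sub_atTop_nat n)
    refine squeeze_zero' (Eventually.of_forall fun _ => norm_nonneg _) ?_ h1
    filter_upwards [eventually_ge_atTop n] with k hk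
    obtain ⟨j, rfl⟩ := Nat.exists_eq_add_of_le hk
    rw [mul_assoc, S'_mul_q_add, ← mul_assoc, Nat.add_sub_cancel_left]
    calc ‖T * p.q j * p.S' ^ n‖ ≤ ‖T * p.q j‖ * ‖p.S' ^ n‖ := norm_mul_le _ _
      _ ≤ ‖T * p.q j‖ * 1 := by gcongr; exact p.normS' n
      _ = _ := mul_one _
  · refine squeeze_zero (fun _ => norm_nonneg _) (fun k => ?_) hT.2
    rw [← mul_assoc]
    calc ‖p.q k * T * p.S' ^ n‖ ≤ ‖p.q k * T‖ * ‖p.S' ^ n‖ := norm_mul_le _ _
      _ ≤ ‖p.q k * T‖ * 1 := by gcongr; exact p.normS' n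
      _ = _ := mul_one _

lemma S_mul_mem {T : R} (hT : T ∈ p.KA 𝕜) (n : ℕ) : p.S ^ n * T ∈ p.KA 𝕜 := by
  rw [mem_KA] at *
  constructor
  · refine squeeze_zero (fun _ => norm_nonneg _) (fun k => ?_) hT.1
    rw [mul_assoc]
    calc ‖p.S ^ n * (T * p.q k)‖ ≤ ‖p.S ^ n‖ * ‖T * p.q k‖ := norm_mul_le _ _
      _ ≤ 1 * ‖T * p.q k‖ := by gcongr; exact p.normS n
      _ = _ := one_mul _
  · have h1 : Tendsto (fun k => ‖p.q (k - n) * T‖) atTop (𝓝 0) :=
      hT.2.comp (tendsto_sub_atTop_nat n)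
    refine squeeze_zero' (Eventually.of_forall fun _ => norm_nonneg _) ?_ h1
    filter_upwards [eventually_ge_atTop n] with k hk
    obtain ⟨j, rfl⟩ := Nat.exists_eq_add_of_le' hk
    rw [← mul_assoc, q_add_mul_S, mul_assoc, Nat.add_sub_cancel]
    calc ‖p.S ^ n * (p.q j * T)‖ ≤ ‖p.S ^ n‖ * ‖p.q j * T‖ := norm_mul_le _ _
      _ ≤ 1 * ‖p.q j * T‖ := by gcongr; exact p.normS n
      _ = _ := one_mul _

/-- factorization -/
lemma factor {r : R} (hr : r ∈ p.KA 𝕜) {c : ℝ} (hc : 0 < c) (hrc : ‖r‖ ≤ c) :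
    ∃ a ∈ p.KA 𝕜, ∃ b ∈ p.KA 𝕜, r = a * b ∧ ‖a‖ ≤ 4 * c ∧ ‖b‖ ≤ 4 := by
  have hex : ∀ j : ℕ, ∃ N, ∀ n ≥ N, ‖r * p.q n‖ ≤ (1/4)^j * c := by
    intro j
    obtain ⟨N, hN⟩ := Metric.tendsto_atTop.1 hr.1 ((1/4)^j * c) (by positivity)
    refine ⟨N, fun n hn => ?_⟩
    have := hN n hn
    rw [Real.dist_eq, sub_zero, abs_of_nonneg (norm_nonneg _)] at this
    exact this.le
  choose N hN using hex
  let n : ℕ → ℕ := fun j => Nat.rec 0 (fun j m => max m (N (j+1))) j
  have hn0 : n 0 = 0 := rfl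
  have hnS : ∀ j, n (j+1) = max (n j) (N (j+1)) := fun j => rfl
  have hnmono : Monotone n := monotone_nat_of_le_succ fun j => by rw [hnS]; exact le_max_left _ _
  have hn : ∀ j, ‖r * p.q (n j)‖ ≤ (1/4)^j * c := by
    intro j
    cases j with
    | zero => rw [hn0, q_zero, mul_one]; simpa using hrc
    | succ j => exact hN (j+1) _ (by rw [hnS]; exact le_max_right _ _)
  set D : ℕ → R := fun j => p.q (n j) - p.q (n (j+1)) with hD
  have hDmem : ∀ j, D j ∈ p.KA 𝕜 := by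
    intro j
    have : D j = (1 - p.q (n (j+1))) - (1 - p.q (n j)) := by simp only [hD]; abel
    rw [this]
    exact sub_mem (p.p_mem 𝕜 _) (p.p_mem 𝕜 _)
  have hDnorm : ∀ j, ‖D j‖ ≤ 2 := by
    intro j
    refine (norm_sub_le _ _).trans ?_
    have h1 := p.normq (n j)
    have h2 := p.normq (n (j+1))
    linarith
  have hrD : ∀ j, ‖r * D j‖ ≤ 2 * ((1/4)^j * c) := by
    intro j
    simp only [hD]
    rw [mul_sub]
    refine (norm_sub_le _ _).trans ?_
    have h1 := hn j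
    have h2 := hn (j+1)
    have h3 : (1/4 : ℝ)^(j+1) * c ≤ (1/4)^j * c := by
      gcongr ?_ * c
      exact pow_le_pow_of_le_one (by norm_num) (by norm_num) (by omega)
    linarith
  have hDD : ∀ i j, i ≠ j → D i * D j = 0 := by
    intro i j hij
    simp only [hD]
    rcases lt_or_gt_of_ne hij with h | h
    · have h0 : n i ≤ n j := hnmono h.le
      have h1 : n (i+1) ≤ n j := hnmono h
      have h2 : n j ≤ n (j+1) := hnmono (Nat.le_succ _)
      rw [sub_mul, mul_sub, mul_sub, p.q_mul_q_le h0, p.q_mul_q_le (h0.trans h2),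
        p.q_mul_q_le h1, p.q_mul_q_le (h1.trans h2)]
      abel
    · have h0 : n j ≤ n i := hnmono h.le
      have h1 : n (j+1) ≤ n i := hnmono h
      have h2 : n i ≤ n (i+1) := hnmono (Nat.le_succ _)
      rw [sub_mul, mul_sub, mul_sub, p.q_mul_q_ge h0, p.q_mul_q_ge h1,
        p.q_mul_q_ge (h0.trans h2), p.q_mul_q_ge (h1.trans h2)]
      abel
  have hDD' : ∀ j, D j * D j = D j := by
    intro j
    simp only [hD]
    have h2 : n j ≤ n (j+1) := hnmono (Nat.le_succ _)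
    rw [sub_mul, mul_sub, mul_sub, p.q_mul_q_le le_rfl, p.q_mul_q_le h2, p.q_mul_q_ge h2,
      p.q_mul_q_le le_rfl]
    abel
  have hgeo : Summable (fun j : ℕ => (1/2 : ℝ)^j) := summable_geometric_two
  -- b
  set fb : ℕ → R := fun j => ((2:𝕜)⁻¹)^j • D j with hfb
  have hfbn : ∀ j, ‖fb j‖ ≤ 2 * (1/2)^j := by
    intro j
    simp only [hfb]
    rw [norm_smul, norm_pow, norm_inv, RCLike.norm_ofNat]
    have := hDnorm j
    have h2 : (0:ℝ) ≤ (2⁻¹)^j := by positivity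
    rw [one_div]
    nlinarith
  have hsb : Summable fb := Summable.of_norm_bounded (hgeo.mul_left 2) hfbn
  have hb4 : ‖∑' j, fb j‖ ≤ 4 := by
    refine (tsum_of_norm_bounded ((hasSum_geometric_two).mul_left 2) hfbn).trans ?_
    norm_num
  -- a
  set fa : ℕ → R := fun j => (2:𝕜)^j • (r * D j) with hfa
  have hfan : ∀ j, ‖fa j‖ ≤ (2 * c) * (1/2)^j := by
    intro j
    simp only [hfa]
    rw [norm_smul, norm_pow, RCLike.norm_ofNat]
    have := hrD j
    calc (2:ℝ)^j * ‖r * D j‖ ≤ 2^j * (2 * ((1/4)^j * c)) := by gcongr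
      _ = (2 * c) * (2^j * (1/4)^j) := by ring
      _ = (2 * c) * (1/2)^j := by rw [← mul_pow]; norm_num
  have hsa : Summable fa := Summable.of_norm_bounded (hgeo.mul_left (2*c)) hfan
  have ha4 : ‖∑' j, fa j‖ ≤ 4 * c := by
    refine (tsum_of_norm_bounded ((hasSum_geometric_two).mul_left (2*c)) hfan).trans ?_
    linarith
  have hmem : ∀ f : ℕ → R, (∀ j, f j ∈ p.KA 𝕜) → Summable f → ∑' j, f j ∈ p.KA 𝕜 := by
    intro f hf hs
    refine (p.isClosed_KA 𝕜).mem_of_tendsto hs.hasSum.tendsto_sum_nat ?_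
    filter_upwards with J
    exact sum_mem fun j _ => hf j
  refine ⟨∑' j, fa j, hmem _ (fun j => ?_) hsa, ∑' j, fb j, hmem _ (fun j => ?_) hsb, ?_, ha4, hb4⟩
  · exact SMulMemClass.smul_mem _ (mul_mem hr (hDmem j))
  · exact SMulMemClass.smul_mem _ (hDmem j)
  · -- product
    have h1 : ∀ i, D i * ∑' j, fb j = ((2:𝕜)⁻¹)^i • D i := by
      intro i
      have h2 := hsb.hasSum.mul_left (D i)
      have h3 : HasSum (fun j => D i * fb j) (D i * fb i) := by
        refine hasSum_single i fun j hj => ?_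
        simp only [hfb]
        rw [mul_smul_comm, hDD i j (Ne.symm hj), smul_zero]
      rw [h2.unique h3]
      simp only [hfb]
      rw [mul_smul_comm, hDD']
    have h2 : HasSum (fun i => r * D i) ((∑' j, fa j) * ∑' j, fb j) := by
      have h3 := hsa.hasSum.mul_right (∑' j, fb j)
      have h4 : (fun i => fa i * ∑' j, fb j) = fun i => r * D i := by
        funext i
        simp only [hfa]
        rw [smul_mul_assoc, mul_assoc, h1, mul_smul_comm, smul_smul, ← mul_pow,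
          mul_inv_cancel₀ two_ne_zero, one_pow, one_smul]
      rw [h4] at h3
      exact h3
    have h3 : Tendsto (fun J => ∑ i ∈ Finset.range J, r * D i) atTop (𝓝 r) := by
      have h4 : ∀ J, ∑ i ∈ Finset.range J, r * D i = r - r * p.q (n J) := by
        intro J
        rw [← Finset.mul_sum]
        simp only [hD]
        rw [Finset.sum_range_sub', hn0, q_zero, mul_sub, mul_one]
      simp only [h4]
      have h5 : Tendsto (fun J => r * p.q (n J)) atTop (𝓝 0) := by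
        refine squeeze_zero_norm hn ?_
        have := (tendsto_pow_atTop_nhds_zero_of_lt_one (by norm_num : (0:ℝ) ≤ 1/4) (by norm_num)).mul_const c
        rwa [zero_mul] at this
      have := tendsto_const_nhds (x := r).sub h5
      rwa [sub_zero] at this
    exact tendsto_nhds_unique h3 h2.tendsto_sum_nat

/-- `KA` has uniformly open multiplication. -/
theorem uniformlyOpen : UniformlyOpenMul (fun a b : p.KA 𝕜 => a * b) := by
  intro ε hε
  refine ⟨ε^2/64, by positivity, ?_⟩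
  rintro ⟨x, hx⟩ ⟨y, hy⟩ ⟨z, hz⟩ hzb
  rw [mem_ball, dist_eq_norm] at hzb
  have hzb' : ‖z - x * y‖ < ε^2/64 := hzb
  obtain ⟨N1, hN1⟩ := Metric.tendsto_atTop.1 hx.1 (ε/8) (by positivity)
  obtain ⟨N2, hN2⟩ := Metric.tendsto_atTop.1 hy.2 (ε/8) (by positivity)
  set n := max N1 N2 with hn
  have h1 : ‖x * p.q n‖ < ε/8 := by
    have := hN1 n (le_max_left _ _)
    rwa [Real.dist_eq, sub_zero, abs_of_nonneg (norm_nonneg _)] at this
  have h2 : ‖p.q n * y‖ < ε/8 := by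
    have := hN2 n (le_max_right _ _)
    rwa [Real.dist_eq, sub_zero, abs_of_nonneg (norm_nonneg _)] at this
  set x0 : R := x * (1 - p.q n) with hx0
  set y0 : R := (1 - p.q n) * y with hy0
  have hx0m : x0 ∈ p.KA 𝕜 := mul_mem hx (p.p_mem 𝕜 n)
  have hy0m : y0 ∈ p.KA 𝕜 := mul_mem (p.p_mem 𝕜 n) hy
  have hqq : p.q n * p.q n = p.q n := p.q_mul_q_le le_rfl
  have hpp : (1 - p.q n) * (1 - p.q n) = 1 - p.q n := by
    rw [sub_mul, mul_sub, mul_sub, hqq]; simp
  have hxy : x0 * y0 = x * y - (x * p.q n) * (p.q n * y) := by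
    have e1 : x0 * y0 = x * ((1 - p.q n) * (1 - p.q n)) * y := by
      rw [hx0, hy0]; simp only [mul_assoc]
    have e2 : (x * p.q n) * (p.q n * y) = x * (p.q n * p.q n) * y := by simp only [mul_assoc]
    rw [e1, e2, hpp, hqq, mul_sub, sub_mul, mul_one]
  set r : R := z - x0 * y0 with hr
  have hrm : r ∈ p.KA 𝕜 := sub_mem hz (mul_mem hx0m hy0m)
  have hrn : ‖r‖ ≤ (ε/5)^2 := by
    have e1 : r = (z - x * y) + (x * p.q n) * (p.q n * y) := by rw [hr, hxy]; abel
    have e2 : ‖(x * p.q n) * (p.q n * y)‖ ≤ (ε/8) * (ε/8) :=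
      (norm_mul_le _ _).trans (mul_le_mul h1.le h2.le (norm_nonneg _) (by positivity))
    rw [e1]
    refine (norm_add_le _ _).trans ?_
    nlinarith [sq_nonneg ε]
  obtain ⟨a0, ha0, b0, hb0, hab, ha0n, hb0n⟩ := p.factor 𝕜 hrm (by positivity : 0 < (ε/5)^2) hrn
  have hs : (0:ℝ) < ε/5 := by positivity
  set t : 𝕜 := ((ε/5 : ℝ) : 𝕜) with ht
  have htn : ‖t‖ = ε/5 := by rw [ht, RCLike.norm_ofReal, abs_of_pos hs]
  have ht0 : t ≠ 0 := by rw [← norm_ne_zero_iff, htn]; exact hs.ne'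
  set a : R := t⁻¹ • a0 with ha
  set b : R := t • b0 with hb
  have ham : a ∈ p.KA 𝕜 := SMulMemClass.smul_mem _ ha0
  have hbm : b ∈ p.KA 𝕜 := SMulMemClass.smul_mem _ hb0
  have hab' : a * b = r := by
    rw [ha, hb, smul_mul_smul_comm, inv_mul_cancel₀ ht0, one_smul, hab]
  have han : ‖a‖ ≤ 4 * (ε/5) := by
    rw [ha, norm_smul, norm_inv, htn, inv_mul_le_iff₀ hs]
    calc ‖a0‖ ≤ 4 * (ε/5)^2 := ha0n
      _ = _ := by ring
  have hbn : ‖b‖ ≤ 4 * (ε/5) := by
    rw [hb, norm_smul, htn, mul_comm]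
    gcongr
  have hS0 : (1 - p.q n) * p.S ^ n = 0 := by rw [sub_mul, one_mul, q_mul_S, sub_self]
  have hS0' : p.S' ^ n * (1 - p.q n) = 0 := by rw [mul_sub, mul_one, S'_mul_q, sub_self]
  refine ⟨⟨x0 + a * p.S' ^ n, add_mem hx0m (p.mul_S'_mem 𝕜 ham n)⟩, ?_,
    ⟨y0 + p.S ^ n * b, add_mem hy0m (p.S_mul_mem 𝕜 hbm n)⟩, ?_, ?_⟩
  · rw [mem_ball, dist_eq_norm]
    change ‖x0 + a * p.S' ^ n - x‖ < ε
    have e1 : x0 + a * p.S' ^ n - x = a * p.S' ^ n - x * p.q n := by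
      rw [hx0, mul_sub, mul_one]; abel
    rw [e1]
    calc ‖a * p.S' ^ n - x * p.q n‖ ≤ ‖a * p.S' ^ n‖ + ‖x * p.q n‖ := norm_sub_le _ _
      _ ≤ ‖a‖ * ‖p.S' ^ n‖ + ‖x * p.q n‖ := by gcongr; exact norm_mul_le _ _
      _ ≤ (4 * (ε/5)) * 1 + ε/8 := by
        gcongr
        exact p.normS' n
      _ < ε := by linarith
  · rw [mem_ball, dist_eq_norm]
    change ‖y0 + p.S ^ n * b - y‖ < ε
    have e1 : y0 + p.S ^ n * b - y = p.S ^ n * b - p.q n * y := by
      rw [hy0, sub_mul, one_mul]; abel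
    rw [e1]
    calc ‖p.S ^ n * b - p.q n * y‖ ≤ ‖p.S ^ n * b‖ + ‖p.q n * y‖ := norm_sub_le _ _
      _ ≤ ‖p.S ^ n‖ * ‖b‖ + ‖p.q n * y‖ := by gcongr; exact norm_mul_le _ _
      _ ≤ 1 * (4 * (ε/5)) + ε/8 := by
        gcongr
        exact p.normS n
      _ < ε := by linarith
  · apply Subtype.ext
    change (x0 + a * p.S' ^ n) * (y0 + p.S ^ n * b) = z
    have e1 : x0 * (p.S ^ n * b) = 0 := by
      rw [hx0, mul_assoc, ← mul_assoc (1 - p.q n), hS0]; simp
    have e2 : a * p.S' ^ n * y0 = 0 := by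
      rw [hy0, mul_assoc, ← mul_assoc (p.S' ^ n), hS0']; simp
    have e3 : a * p.S' ^ n * (p.S ^ n * b) = r := by
      rw [mul_assoc, ← mul_assoc (p.S' ^ n), cancel, one_mul, hab']
    rw [add_mul, mul_add, mul_add, e1, e2, e3, hr]
    abel

end Pair

end Sub

end Pool.Agent.X187.AR
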