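import Pool.Agent.X187.AR.Sub

namespace Pool.Agent.X187.AR

set_option linter.unusedSectionVars false

open Filter Topology Set Metric

section Typ

variable (𝕜 : Type) [RCLike 𝕜] {R : Type} [NormedRing R] [NormedAlgebra 𝕜 R] [CompleteSpace R]
  [NormOneClass R] (p : Pair R)

/-- the algebra as a type -/
def Al : Type := ↥(p.KA 𝕜)

noncomputable instance : NonUnitalNormedRing (Al 𝕜 p) := inferInstanceAs (NonUnitalNormedRing ↥(p.KA 𝕜))

variable {𝕜 p}

/-- coercion -/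
def Al.val (a : Al 𝕜 p) : R := Subtype.val (p := fun x => x ∈ p.KA 𝕜) a

/-- constructor -/
def Al.mk (a : R) (h : a ∈ p.KA 𝕜) : Al 𝕜 p := ⟨a, h⟩

lemma Al.mem (a : Al 𝕜 p) : a.val ∈ p.KA 𝕜 := a.2
lemma Al.ext {a b : Al 𝕜 p} (h : a.val = b.val) : a = b := Subtype.ext h
lemma Al.norm_val (a : Al 𝕜 p) : ‖a.val‖ = ‖a‖ := rfl
lemma Al.val_mk (a : R) (h : a ∈ p.KA 𝕜) : (Al.mk a h).val = a := rfl
lemma Al.val_add (a b : Al 𝕜 p) : (a + b).val = a.val + b.val := rfl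
lemma Al.val_mul (a b : Al 𝕜 p) : (a * b).val = a.val * b.val := rfl
lemma Al.val_sub (a b : Al 𝕜 p) : (a - b).val = a.val - b.val := rfl

noncomputable instance : Module 𝕜 (Al 𝕜 p) := inferInstanceAs (Module 𝕜 ↥(p.KA 𝕜))

lemma Al.val_smul (c : 𝕜) (a : Al 𝕜 p) : (c • a).val = c • a.val := rfl

noncomputable instance : NormedSpace 𝕜 (Al 𝕜 p) where
  norm_smul_le c a := by
    rw [← Al.norm_val, ← Al.norm_val, Al.val_smul]
    exact norm_smul_le _ _

instance : IsScalarTower 𝕜 (Al 𝕜 p) (Al 𝕜 p) where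
  smul_assoc c a b := by
    apply Al.ext
    rw [smul_eq_mul, smul_eq_mul, Al.val_mul, Al.val_smul, Al.val_smul, Al.val_mul, smul_mul_assoc]

instance : SMulCommClass 𝕜 (Al 𝕜 p) (Al 𝕜 p) where
  smul_comm c a b := by
    apply Al.ext
    rw [smul_eq_mul, smul_eq_mul, Al.val_mul, Al.val_smul, Al.val_smul, Al.val_mul, mul_smul_comm]

instance : CompleteSpace (Al 𝕜 p) := inferInstanceAs (CompleteSpace ↥(p.KA 𝕜))

theorem Al.uniformlyOpen : UniformlyOpenMul (fun a b : Al 𝕜 p => a * b) := p.uniformlyOpen 𝕜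

end Typ

end Pool.Agent.X187.AR
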